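import Pool.Agent.Helper75.FS.St

set_option autoImplicit false

/-!
Module A3 of project FS: a code of length `n` gives a code of length `n' ≥ n` with the same codimension.
-/

namespace Pool.Agent.Helper48.FS

open Pool.Agent.Helper75.FS

/-- restriction to the first `n` coordinates -/
def res (n : ℕ) : (Fin (n + 1) → ZMod 2) →ₗ[ZMod 2] (Fin n → ZMod 2) :=
  LinearMap.funLeft (ZMod 2) (ZMod 2) Fin.castSucc

theorem res_apply (n : ℕ) (x : Fin (n + 1) → ZMod 2) (i : Fin n) : res n x i = x i.castSucc := rfl

theorem res_snoc (n : ℕ) (v : Fin n → ZMod 2) (a : ZMod 2) :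
    res n (Fin.snoc (α := fun _ => ZMod 2) v a) = v := by
  ext i
  rw [res_apply, Fin.snoc_castSucc]

theorem step (n r c : ℕ) (h : Code n r c) : Code (n + 1) r c := by
  obtain ⟨V, hcov, hcard⟩ := h
  refine ⟨V.comap (res n), ?_, ?_⟩
  · intro y
    obtain ⟨v, hv, hvy⟩ := hcov (res n y)
    refine ⟨Fin.snoc (α := fun _ => ZMod 2) v (y (Fin.last n)), ?_, ?_⟩
    · rw [Submodule.mem_comap, res_snoc]
      exact hv
    · refine le_trans ?_ hvy
      unfold hammingNorm
      refine le_trans (Finset.card_le_card (t := (Finset.univ.filter
        (fun i : Fin n => (res n y - v) i ≠ 0)).map Fin.castSuccEmb) ?_) (le_of_eq (Finset.card_map _))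
      intro i hi
      rw [Finset.mem_filter] at hi
      rw [Finset.mem_map]
      induction i using Fin.lastCases with
      | last =>
        exfalso
        apply hi.2
        rw [Pi.sub_apply, Fin.snoc_last, sub_self]
      | cast i =>
        refine ⟨i, ?_, rfl⟩
        rw [Finset.mem_filter]
        refine ⟨Finset.mem_univ _, ?_⟩
        have h2 := hi.2
        rw [Pi.sub_apply, Fin.snoc_castSucc] at h2
        rw [Pi.sub_apply, res_apply]
        exact h2
  · have e : ↥(V.comap (res n)) ≃ ↥V × ZMod 2 :=
      { toFun := fun x => (⟨res n x.1, x.2⟩, x.1 (Fin.last n))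
        invFun := fun p => ⟨Fin.snoc (α := fun _ => ZMod 2) p.1.1 p.2, by
          rw [Submodule.mem_comap, res_snoc]
          exact p.1.2⟩
        left_inv := by
          intro x
          apply Subtype.ext
          funext i
          induction i using Fin.lastCases with
          | last => simp
          | cast i => simp [res_apply]
        right_inv := by
          intro p
          refine Prod.ext ?_ ?_
          · apply Subtype.ext
            exact res_snoc n _ _
          · simp }
    rw [Nat.card_congr e, Nat.card_prod, Nat.card_zmod, pow_succ, ← hcard]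
    ring

theorem hA3 : StA3 := by
  intro n n' r c hn h
  induction n', hn using Nat.le_induction with
  | base => exact h
  | succ m _ ih => exact step m r c ih

end Pool.Agent.Helper48.FS
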